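import Pool.Agent.H4.MR

set_option autoImplicit false

namespace Pool.Agent.Results.MP_3930bf_lc.Gap

open Pool.Agent.H11.PT Pool.Agent.H21.ER Pool.Agent.H4.MR

theorem result :
    (∀ ε : ℝ, ε < 1 → ∃ f : Qf → List (List ℕ) × ℕ, PolyTime bits bits f ∧ ∀ φ,
      Sq (f φ).1 ∧ 1 ≤ (f φ).2 ∧ (ETR φ → ∃ x : ℕ → ℝ, (mat (f φ).1 x).rank ≤ (f φ).2) ∧
        (¬ETR φ → ∀ x : ℕ → ℝ, (1 + ε) * (f φ).2 < (mat (f φ).1 x).rank)) ∧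
    ∀ (M : List (List ℕ)) (z : ℕ → ℂ), ∃ x : ℕ → ℝ, (mat M x).rank ≤ 2 * (mat M z).rank := by
  refine ⟨fun ε h => ?_, fun M z => ⟨_, re_rank M z⟩⟩
  obtain ⟨k, hk⟩ := exists_nat_gt (ε / (1 - ε))
  rw [div_lt_iff₀ (by linarith)] at hk
  obtain ⟨f, a, b⟩ := main k
  refine ⟨fun φ => (f φ, k + 1), (a.pair (PT.const _)).polyTime, fun φ =>
    ⟨(b φ).1, by simp, (b φ).2.1, fun n x => ?_⟩⟩
  have : ((2 * k + 1 : ℕ) : ℝ) ≤ _ := Nat.cast_le.2 ((b φ).2.2 n x)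
  push_cast at *
  linarith

end Pool.Agent.Results.MP_3930bf_lc.Gap
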